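import Mathlib
import Pool.Agent.Lib.MP_35abc2_gt.Z_Final
import Pool.Agent.Lib.MP_35abc2_gt.Stmt
import Pool.Agent.Lib.MP_35abc2_gt.Bridge

/-!
# Ricci shrinkers with arbitrarily small scalar curvature

The definitions (Christoffel symbols, Riemann and Ricci tensor, Hessian, scalar curvature,
completeness, Ricci shrinker) are in `Pool/Agent/Lib/MP_35abc2_gt/Stmt.lean`.  They are the classical
index expressions on a connected open subset of `ℝⁿ`, i.e. on a manifold covered by one chart.

The manifold is `ℝ³ × (ℝ³ ∖ 0) × ℝ^(n-6)`, that is `ℝ³ × S² × ℝ × ℝ^(n-6)`, and the metric is the product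
of a doubly warped shrinker on `ℝ³ × S²` and the Gaussian shrinker.  The doubly warped shrinkers
are obtained by a two parameter shooting argument near the Ricci-flat cone over `S² × S²`.
-/

set_option autoImplicit false

namespace Pool.Agent.Results.MP_35abc2_gt.SmallScalar

open Pool.Agent.RSC

/-- **Main theorem.** The answer to the question is negative in every dimension `n ≥ 6`: for every
`ε > 0` there is a non-flat `n`-dimensional Ricci shrinker (complete gradient shrinking Ricci
soliton, `Ric + ∇²f = g/2`) whose scalar curvature `R` satisfies `|R| ≤ ε` everywhere. -/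
theorem result (n : ℕ) (hn : 6 ≤ n) (ε : ℝ) (hε : 0 < ε) :
    ∃ (Ω : Set (Fin n → ℝ)) (g : (Fin n → ℝ) → Matrix (Fin n) (Fin n) ℝ) (f : (Fin n → ℝ) → ℝ),
      IsShrinker Ω g f ∧ NonFlat Ω g ∧ ∀ x ∈ Ω, |scal g x| ≤ ε :=
  Pool.Agent.RSB.bridge (Pool.Agent.RS.main n hn ε hε)

end Pool.Agent.Results.MP_35abc2_gt.SmallScalar
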